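import Mathlib
import Pool.Agent.W864.ApproxWH

/-!
# An approximate form of Zauner's conjecture in prime power dimensions

For every finite field `F` with `q` elements and characteristic different from `2` and `3` there is
a unit vector `ψ` of `ℂ^F` whose orbit under the Weyl-Heisenberg group of `F` consists of `q²` unit
vectors which form an exactly tight frame and are nearly equiangular, with an error `O(q^(-1/4))`.
The overlaps inside each of the `q` classes of vectors `W(a,b) ψ`, `b ∈ F`, have exactly the modulus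
`1/√(q+1)`. If `q ≡ 1 mod 3` then `ψ` is fixed by a Clifford unitary of order three.
-/

set_option autoImplicit false

namespace Pool.Agent.Results.MP_d0f9e0_co.ApproxWeylHeisenberg

open Pool.Agent.W864.AWH

/-- Let `F` be a finite field with `q` elements in which `2 ≠ 0` and `3 ≠ 0`, and let `χ` be a
nontrivial additive character of `F`. Let `W(a,b)`, `a, b ∈ F`, be the Weyl-Heisenberg operators
`(W(a,b) ψ)(x) = χ(b x) ψ(x + a)` of `ℂ^F` (the definition `weyl`). There is `ψ ∈ ℂ^F` such that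
* the `q²` vectors `W(a,b) ψ` are unit vectors;
* `|(q + 1) |⟨W(a,b) ψ, W(a',b') ψ⟩|² - 1| ≤ (1 + q^(-1/4))^4 - 1` whenever `(a,b) ≠ (a',b')`;
* `|⟨W(a,b) ψ, W(a,b') ψ⟩|² = 1/(q + 1)` exactly, whenever `b ≠ b'`;
* the vectors `W(a,b) ψ` form an exactly tight frame;
* `ψ(α x) = ψ(x)` for all `x`, whenever `α³ = 1`. -/
theorem result (F : Type) [Field F] [Fintype F] (h2 : (2 : F) ≠ 0) (h3 : (3 : F) ≠ 0)
    (χ : AddChar F ℂ) (hχ : χ ≠ 1) :
    ∃ ψ : EuclideanSpace ℂ F,
      (∀ a b : F, ‖weyl χ a b ψ‖ = 1) ∧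
      (∀ a b a' b' : F, (a, b) ≠ (a', b') →
        |((Fintype.card F : ℝ) + 1) * ‖inner ℂ (weyl χ a b ψ) (weyl χ a' b' ψ)‖ ^ 2 - 1| ≤
          (1 + (Fintype.card F : ℝ) ^ (-(1 / 4) : ℝ)) ^ 4 - 1) ∧
      (∀ a b b' : F, b ≠ b' →
        ‖inner ℂ (weyl χ a b ψ) (weyl χ a b' ψ)‖ ^ 2 = 1 / ((Fintype.card F : ℝ) + 1)) ∧
      (∀ u : EuclideanSpace ℂ F,
        ∑ a : F, ∑ b : F, ‖inner ℂ (weyl χ a b ψ) u‖ ^ 2 = (Fintype.card F : ℝ) * ‖u‖ ^ 2) ∧
      (∀ α x : F, α ^ 3 = 1 → ψ (α * x) = ψ x) := by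
  classical
  refine ⟨fid χ, fun a b => ?_, fun a b a' b' hab => ?_, fun a b b' hb => ?_, fun u => ?_,
    fun α x hα => fid_smul χ α x hα⟩
  · rw [norm_weyl, norm_fid]
  · rw [norm_inner_weyl]
    refine overlap_bound χ hχ h2 h3 _ _ fun h => hab ?_
    rw [Prod.mk.injEq, sub_eq_zero, sub_eq_zero] at h
    rw [h.1, h.2]
  · rw [norm_inner_weyl, sub_self]
    have h := overlap_zero χ hχ (b' - b) (sub_ne_zero.mpr hb.symm)
    have hq := card_ge F
    rw [eq_div_iff (by linarith), mul_comm]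
    exact h
  · rw [tight χ hχ, norm_fid]
    ring

end Pool.Agent.Results.MP_d0f9e0_co.ApproxWeylHeisenberg
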