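import Mathlib
import Pool.Agent.W864.SymFixed

set_option autoImplicit false

namespace Pool.Agent.Results.MP_d0f9e0_co.FixedLines

/-- `x` is a maximal equiangular tight frame in `ℂ^d`. -/
def IsMaximalETF (d : ℕ) (x : Fin (d ^ 2) → EuclideanSpace ℂ (Fin d)) : Prop :=
  (∀ i, ‖x i‖ = 1) ∧ ∀ i j, i ≠ j → ‖inner ℂ (x i) (x j)‖ = 1 / Real.sqrt ((d : ℝ) + 1)

/-- The unitary transformation `U` maps the line of `x i` to the line of `x (π i)` for all `i`. -/
def Induces {d : ℕ} (x : Fin (d ^ 2) → EuclideanSpace ℂ (Fin d))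
    (U : EuclideanSpace ℂ (Fin d) ≃ₗᵢ[ℂ] EuclideanSpace ℂ (Fin d))
    (π : Equiv.Perm (Fin (d ^ 2))) : Prop :=
  ∀ i, ∃ c : ℂ, U (x i) = c • x (π i)

/-- the modulus `|Tr U|` of the trace of a unitary transformation. -/
noncomputable def absTrace {d : ℕ}
    (U : EuclideanSpace ℂ (Fin d) ≃ₗᵢ[ℂ] EuclideanSpace ℂ (Fin d)) : ℝ :=
  ‖LinearMap.trace ℂ (EuclideanSpace ℂ (Fin d)) U.toLinearEquiv.toLinearMap‖

/-- Let a unitary `U` induce a non-trivial permutation `π` of the lines of a maximal ETF in `ℂ^d`.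
Then `U` fixes exactly `|Tr U|²` of the `d²` lines, this number is at most `(1 + √(d+1))²` (for the
Hoggar lines, `d = 8`, this is `16` and is attained), and for every prime `p` dividing the order of
`π` it satisfies `(p-1) |Tr U|² ≤ p |Tr U| + d`. -/
theorem result (d : ℕ) (x : Fin (d ^ 2) → EuclideanSpace ℂ (Fin d)) (hx : IsMaximalETF d x)
    (U : EuclideanSpace ℂ (Fin d) ≃ₗᵢ[ℂ] EuclideanSpace ℂ (Fin d))
    (π : Equiv.Perm (Fin (d ^ 2))) (hU : Induces x U π) (hπ : π ≠ 1) :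
    ((Finset.univ.filter fun i => π i = i).card : ℝ) = absTrace U ^ 2 ∧
    absTrace U ≤ 1 + Real.sqrt ((d : ℝ) + 1) ∧
    ∀ p : ℕ, p.Prime → p ∣ orderOf π →
      ((p : ℝ) - 1) * absTrace U ^ 2 ≤ p * absTrace U + d := by
  rcases Nat.eq_zero_or_pos d with h0 | hd
  · subst h0
    exact absurd (Equiv.ext fun i => absurd i.2 (by simp)) hπ
  obtain ⟨M, hM, hMv⟩ := Pool.Agent.H109R2.SymGroup.unitary_matrix U
  have hI : Pool.Agent.W864.Sym.Ind x M π := by
    refine ⟨hM, fun i => ?_⟩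
    obtain ⟨c, hc⟩ := hU i
    exact ⟨c, by rw [hMv, hc]; rfl⟩
  have htr : ‖Matrix.trace M‖ = absTrace U := by
    have := Pool.Agent.H109R2.SymGroup.trace_of M 1 U (fun v => by rw [hMv, one_smul])
    rw [one_mul] at this
    rw [this]; rfl
  have h1 := Pool.Agent.W864.Sym.norm_trace_sq hd hx hI
  rw [htr] at h1
  have h0 : 0 ≤ absTrace U := norm_nonneg _
  have h2 : Real.sqrt (Pool.Agent.W864.Sym.fix π : ℝ) = absTrace U := by
    rw [← h1, Real.sqrt_sq h0]
  refine ⟨h1.symm, ?_, fun p hp hpo => ?_⟩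
  · rw [← h2]
    exact Pool.Agent.W864.Sym.trace_bound hd hx hπ hI
  · have h3 := Pool.Agent.W864.Sym.order_bound hd hx hp hpo hI
    rwa [h2, ← h1] at h3

end Pool.Agent.Results.MP_d0f9e0_co.FixedLines
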