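import Mathlib
import Pool.Agent.W864.SymOrder

set_option autoImplicit false

namespace Pool.Agent.Results.MP_d0f9e0_co.GroupOrder

/-- `x` is a maximal equiangular tight frame in `ℂ^d`. -/
def IsMaximalETF (d : ℕ) (x : Fin (d ^ 2) → EuclideanSpace ℂ (Fin d)) : Prop :=
  (∀ i, ‖x i‖ = 1) ∧ ∀ i j, i ≠ j → ‖inner ℂ (x i) (x j)‖ = 1 / Real.sqrt ((d : ℝ) + 1)

/-- The unitary transformation `U` maps the line of `x i` to the line of `x (π i)` for all `i`. -/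
def Induces {d : ℕ} (x : Fin (d ^ 2) → EuclideanSpace ℂ (Fin d))
    (U : EuclideanSpace ℂ (Fin d) ≃ₗᵢ[ℂ] EuclideanSpace ℂ (Fin d))
    (π : Equiv.Perm (Fin (d ^ 2))) : Prop :=
  ∀ i, ∃ c : ℂ, U (x i) = c • x (π i)

/-- Every group of unitary symmetries of a maximal ETF in `ℂ^d`, `d ≥ 5`, has order less than
`d^(2⌈√(d+1)⌉+5)`. No covariance of the ETF is assumed. -/
theorem result (d : ℕ) (hd : 5 ≤ d) (x : Fin (d ^ 2) → EuclideanSpace ℂ (Fin d))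
    (hx : IsMaximalETF d x) (G : Subgroup (Equiv.Perm (Fin (d ^ 2))))
    (hG : ∀ π ∈ G, ∃ U, Induces x U π) :
    Nat.card G < d ^ (2 * ⌈Real.sqrt ((d : ℝ) + 1)⌉₊ + 5) := by
  have hGM : ∀ π ∈ G, ∃ M, Pool.Agent.W864.Sym.Ind x M π := by
    intro π hπ
    obtain ⟨U, hU⟩ := hG π hπ
    obtain ⟨M, hM, hMv⟩ := Pool.Agent.H109R2.SymGroup.unitary_matrix U
    refine ⟨M, hM, fun i => ?_⟩
    obtain ⟨c, hc⟩ := hU i
    exact ⟨c, by rw [hMv, hc]; rfl⟩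
  have hd' : (5 : ℝ) ≤ d := by exact_mod_cast hd
  have h1 : Real.sqrt ((d : ℝ) + 1) ≤ ((d - 2 : ℕ) : ℝ) := by
    rw [Nat.cast_sub (by omega)]
    refine Real.sqrt_le_iff.mpr ⟨by push_cast; linarith, ?_⟩
    push_cast
    nlinarith
  have h2 : ⌈Real.sqrt ((d : ℝ) + 1)⌉₊ ≤ d - 2 := Nat.ceil_le.mpr h1
  have h3 := Nat.le_ceil (Real.sqrt ((d : ℝ) + 1))
  have h4 := Pool.Agent.W864.Sym.order_le hx G hGM
    (m := ⌈Real.sqrt ((d : ℝ) + 1)⌉₊ + 2) (by push_cast; linarith) (by omega)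
  have h5 : 2 * (⌈Real.sqrt ((d : ℝ) + 1)⌉₊ + 2) + 1 = 2 * ⌈Real.sqrt ((d : ℝ) + 1)⌉₊ + 5 := by ring
  rwa [h5] at h4

end Pool.Agent.Results.MP_d0f9e0_co.GroupOrder
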