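import Mathlib
import Pool.Agent.W864.SymPrimes

set_option autoImplicit false

namespace Pool.Agent.Results.MP_d0f9e0_co.LargePrimes

/-- `x` is a maximal equiangular tight frame in `ℂ^d`. -/
def IsMaximalETF (d : ℕ) (x : Fin (d ^ 2) → EuclideanSpace ℂ (Fin d)) : Prop :=
  (∀ i, ‖x i‖ = 1) ∧ ∀ i j, i ≠ j → ‖inner ℂ (x i) (x j)‖ = 1 / Real.sqrt ((d : ℝ) + 1)

/-- The unitary transformation `U` maps the line of `x i` to the line of `x (π i)` for all `i`. -/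
def Induces {d : ℕ} (x : Fin (d ^ 2) → EuclideanSpace ℂ (Fin d))
    (U : EuclideanSpace ℂ (Fin d) ≃ₗᵢ[ℂ] EuclideanSpace ℂ (Fin d))
    (π : Equiv.Perm (Fin (d ^ 2))) : Prop :=
  ∀ i, ∃ c : ℂ, U (x i) = c • x (π i)

/-- Large prime divisors of the order of a group `G` of unitary symmetries of a maximal ETF in
`ℂ^d` (no covariance is assumed). Let the prime `p` divide `|G|`.
* Always `p ≤ d + 1`.
* If `d ≥ 12` and `p > d/2`, then `p` is `d - 1`, `d`, `d + 1` or `(d + 1)/2`; moreover `p²` does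
  not divide `|G|` unless `p = d`, and `p³` does not divide `|G|`.
* If `p ≥ 20` and `p³ ≥ 64 d²`, then the number of lines fixed by a symmetry of order `p` is a
  square `f²` with `(p - 1) f² ≤ p f + d`, and `p` divides `d - f` or `d + f`. -/
theorem result (d : ℕ) (x : Fin (d ^ 2) → EuclideanSpace ℂ (Fin d)) (hx : IsMaximalETF d x)
    (G : Subgroup (Equiv.Perm (Fin (d ^ 2)))) (hG : ∀ π ∈ G, ∃ U, Induces x U π)
    (p : ℕ) (hp : p.Prime) (hpG : p ∣ Nat.card G) :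
    p ≤ d + 1 ∧
    (12 ≤ d → d < 2 * p →
      (p = d ∨ ((p = d - 1 ∨ p = d + 1 ∨ 2 * p = d + 1) ∧ ¬ p ^ 2 ∣ Nat.card G)) ∧
      ¬ p ^ 3 ∣ Nat.card G) ∧
    (20 ≤ p → 64 * d ^ 2 ≤ p ^ 3 → ∀ π ∈ G, orderOf π = p →
      ∃ f : ℕ, (Finset.univ.filter fun i => π i = i).card = f ^ 2 ∧
        (p - 1) * f ^ 2 ≤ p * f + d ∧ ((p : ℤ) ∣ (d : ℤ) - f ∨ (p : ℤ) ∣ (d : ℤ) + f)) := by
  have hGM : ∀ π ∈ G, ∃ M, Pool.Agent.W864.Sym.Ind x M π := by
    intro π hπ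
    obtain ⟨U, hU⟩ := hG π hπ
    obtain ⟨M, hM, hMv⟩ := Pool.Agent.H109R2.SymGroup.unitary_matrix U
    refine ⟨M, hM, fun i => ?_⟩
    obtain ⟨c, hc⟩ := hU i
    exact ⟨c, by rw [hMv, hc]; rfl⟩
  have : Fact p.Prime := ⟨hp⟩
  obtain ⟨g, hg⟩ := exists_prime_orderOf_dvd_card' (G := G) p hpG
  have hgo : orderOf (g : Equiv.Perm (Fin (d ^ 2))) = p := by rw [Subgroup.orderOf_coe, hg]
  have hpow : ∀ π : Equiv.Perm (Fin (d ^ 2)), orderOf π = p → π ^ p = 1 ∧ π ≠ 1 := by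
    intro π hπ
    refine ⟨by rw [← hπ]; exact pow_orderOf_eq_one π, fun h0 => ?_⟩
    rw [h0, orderOf_one] at hπ
    exact hp.one_lt.ne hπ
  have hd : 1 ≤ d := by
    by_contra h0
    have h0' : d = 0 := by omega
    subst h0'
    exact (hpow g hgo).2 (Equiv.ext fun i => absurd i.2 (by simp))
  refine ⟨?_, fun hd12 hdp => Pool.Agent.W864.Sym.large hx G hGM hp hpG hd12 hdp,
    fun h20 hpd π hπ hπo => ?_⟩
  · obtain ⟨M, hM⟩ := hGM g g.2
    exact Pool.Agent.W864.Sym.prime_le hd hx hp (hpow g hgo).1 (hpow g hgo).2 hM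
  · obtain ⟨M, hM⟩ := hGM π hπ
    obtain ⟨hπp, hπ1⟩ := hpow π hπo
    have hb := Pool.Agent.W864.Sym.prime_bound hd hx hp hπp hπ1 hM
    change ∃ f : ℕ, Pool.Agent.W864.Sym.fix π = f ^ 2 ∧ _
    have hfin : ∀ f : ℕ, Pool.Agent.W864.Sym.fix π = f ^ 2 → (p - 1) * f ^ 2 ≤ p * f + d := by
      intro f hf
      rw [hf] at hb
      push_cast at hb
      rw [Real.sqrt_sq (by positivity)] at hb
      have h1 : (((p - 1) * f ^ 2 : ℕ) : ℝ) ≤ ((p * f + d : ℕ) : ℝ) := by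
        push_cast [Nat.cast_sub hp.one_lt.le]
        exact hb
      exact_mod_cast h1
    rcases Nat.eq_zero_or_pos (Pool.Agent.W864.Sym.fix π) with h0 | h0
    · refine ⟨0, by rw [h0]; rfl, hfin 0 (by rw [h0]; rfl), Or.inl ?_⟩
      have := Pool.Agent.W864.Sym.dvd_of_fix_zero hp hπp h0
      simpa using Int.natCast_dvd_natCast.mpr this
    · obtain ⟨m, hm⟩ := Pool.Agent.W864.Sym.data_of hd hx hp hπp hπ1 hM h0
      obtain ⟨f, hf, hfd⟩ := hm.square (Pool.Agent.W864.Sym.four_sq_le h20 hpd hb)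
      exact ⟨f, hf, hfin f hf, hfd⟩

end Pool.Agent.Results.MP_d0f9e0_co.LargePrimes
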